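import Pool.Agent.Run7.h60.Defs
import Pool.Agent.Run7.h60.Theta3

/-! Every Riemannian metric on the 2-sphere with an isometry of order three
(with two fixed points, as such an isometry always has) carries a stationary Theta-net. -/

set_option autoImplicit false

open Run7.h60

namespace Pool.Agent.Results.MP_c01216_gt.OrderThreeIsometry

/-- If a smooth Riemannian metric on the unit 2-sphere has an isometry `φ` with
`φ ∘ φ ∘ φ = id`, not the identity, with two distinct fixed points, then there is a stationary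
Theta-graph for it. -/
theorem result (g : R3 → Form) (hg : IsMetric g) (φ : R3 → R3) (hφ : IsIsometry g φ)
    (hcube : ∀ x ∈ S2, φ (φ (φ x)) = x) (hne : ∃ x ∈ S2, φ x ≠ x)
    (hfix : ∃ N ∈ S2, ∃ P ∈ S2, N ≠ P ∧ φ N = N ∧ φ P = P) :
    ∃ γ : Fin 3 → ℝ → R3, IsStationaryTheta g γ := by
  have hg' : SphMetric g := ⟨hg.smooth, hg.symm, hg.pos⟩
  have h : Order3 g φ := ⟨hφ.smooth, hφ.maps, hφ.iso, hcube⟩
  obtain ⟨γ, h1, h2, h3, h4, h5, h6, h7, h8⟩ := h.theta hg' (by simp) hne hfix
  rw [Fin.sum_univ_three] at h6 h7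
  exact ⟨γ, h1, fun i => ⟨h2 i, h4 i, h8 i⟩, h3, h5, h6, h7⟩

end Pool.Agent.Results.MP_c01216_gt.OrderThreeIsometry
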