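import Pool.Agent.Run7.h60.Defs
import Pool.Agent.Run7.h60.Defs2
import Pool.Agent.Run7.h60.Swap

/-! Riemannian metrics on the 2-sphere with two orthogonal reflection symmetries whose meridians
are all curved in the same direction in a quarter carry a stationary Theta-net. No curvature
assumption and no closeness to a round metric is made; all ellipsoids are covered, see
`Run7.h60.theta_of_ellipsoid`. -/

set_option autoImplicit false

open Run7.h60

namespace Pool.Agent.Results.MP_c01216_gt.TwoReflections

/-- Let `g` be a smooth Riemannian metric on the unit 2-sphere which is invariant under the
reflections in the planes `x = 0` and `z = 0`. If the geodesic curvatures of the half great circles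
joining `(0,-1,0)` to `(0,1,0)` do not change sign in the open quarter `x > 0, z > 0`, then there
is a stationary Theta-graph for `g`. -/
theorem result (g : R3 → Form) (hg : IsMetric g) (hX : IsIsometry g reflX)
    (hZ : IsIsometry g reflZ) (hM : MeridiansCurvedOneWay g) :
    ∃ γ : Fin 3 → ℝ → R3, IsStationaryTheta g γ :=
  theta_of_oneWay hg hX hZ hM

end Pool.Agent.Results.MP_c01216_gt.TwoReflections
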